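import Mathlib

/-!
MP_2f2576_co, Q2 (and hence Q1), negated form: there are finite no lonely colour graphs of
arbitrarily large chromatic number.

The vertices are the points of `[m + 1] ^ n`; for every line in a coordinate direction we choose one
pair of points of this line as an edge, coloured by its direction.  A circuit which leaves a value of
the `i`-th coordinate must change this coordinate again, so no colour is lonely.  In each of the
`m ^ ((m + 1) ^ n)` vertex colourings with `m` colours every line has a monochromatic pair, and a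
union bound shows that some choice of the edges spoils all these colourings when `n` is large.
-/

set_option autoImplicit false

namespace Pool.Agent.Results.MP_2f2576_co.LonelyUnbounded

/-- Condition (i): every vertex meets at most two edges of each colour. -/
def AtMostTwo {V C : Type} (X : SimpleGraph V) (c : Sym2 V → C) : Prop :=
  ∀ (v : V) (a : C), {e : Sym2 V | e ∈ X.edgeSet ∧ v ∈ e ∧ c e = a}.encard ≤ 2

/-- `X` is a no lonely colour graph: some edge colouring (with a set `C` of colours) satisfies (i)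
and (iii): in every circuit each edge has the same colour as some other edge of that circuit.  Only
the colours of the edges of `X` matter. -/
def NoLonelyColour {V : Type} (X : SimpleGraph V) : Prop :=
  ∃ (C : Type) (c : Sym2 V → C), AtMostTwo X c ∧
    ∀ (v : V) (w : X.Walk v v), w.IsCycle → ∀ e ∈ w.edges, ∃ f ∈ w.edges, f ≠ e ∧ c f = c e

section construction

variable {n k : ℕ}

/-- the lines in coordinate directions -/
abbrev Lines (n k : ℕ) : Type := Fin (n + 1) × (Fin n → Fin k)

/-- the pairs of different positions on a line -/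
abbrev Pairs (k : ℕ) : Type := {p : Fin k × Fin k // p.1 ≠ p.2}

/-- the point at position `a` of the line `l` -/
def pt (l : Lines n k) (a : Fin k) : Fin (n + 1) → Fin k := Fin.insertNth l.1 a l.2

/-- the graph with one edge on every line -/
def graph (E : Lines n k → Pairs k) : SimpleGraph (Fin (n + 1) → Fin k) :=
  SimpleGraph.fromRel (fun x y => ∃ l, x = pt l (E l).1.1 ∧ y = pt l (E l).1.2)

/-- the set of the coordinates changed by an edge -/
def dir (e : Sym2 (Fin (n + 1) → Fin k)) : Set (Fin (n + 1)) :=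
  Sym2.lift ⟨fun x y => {i | x i ≠ y i}, fun x y => by ext i; simp [ne_comm]⟩ e

@[simp] lemma dir_mk (x y : Fin (n + 1) → Fin k) : dir s(x, y) = {i | x i ≠ y i} := rfl

lemma dir_pt (l : Lines n k) (a b : Fin k) (h : a ≠ b) : dir s(pt l a, pt l b) = {l.1} := by
  ext i
  simp only [dir_mk, Set.mem_ofPred_eq, Set.mem_singleton_iff]
  constructor
  · intro hi
    by_contra hne
    apply hi
    obtain ⟨j, rfl⟩ := Fin.exists_succAbove_eq hne
    simp [pt]
  · rintro rfl
    simpa [pt] using h

lemma adj_iff (E : Lines n k → Pairs k) (x y : Fin (n + 1) → Fin k) :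
    (graph E).Adj x y ↔ ∃ l, s(x, y) = s(pt l (E l).1.1, pt l (E l).1.2) := by
  unfold graph
  rw [SimpleGraph.fromRel_adj]
  constructor
  · rintro ⟨_, ⟨l, h1, h2⟩ | ⟨l, h1, h2⟩⟩
    · exact ⟨l, by rw [h1, h2]⟩
    · exact ⟨l, by rw [h1, h2, Sym2.eq_swap]⟩
  · rintro ⟨l, h⟩
    have hne : x ≠ y := by
      rintro rfl
      have h1 := dir_pt l _ _ (E l).2
      rw [← h] at h1
      have h2 : l.1 ∈ (dir s(x, x) : Set (Fin (n + 1))) := by rw [h1]; rfl
      simp at h2
    refine ⟨hne, ?_⟩
    rcases Sym2.eq_iff.1 h with ⟨h1, h2⟩ | ⟨h1, h2⟩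
    · exact Or.inl ⟨l, h1, h2⟩
    · exact Or.inr ⟨l, h2, h1⟩

lemma mem_edge (E : Lines n k → Pairs k) (e : Sym2 (Fin (n + 1) → Fin k))
    (he : e ∈ (graph E).edgeSet) : ∃ l, e = s(pt l (E l).1.1, pt l (E l).1.2) := by
  induction e with
  | h x y =>
    rw [SimpleGraph.mem_edgeSet] at he
    exact (adj_iff E x y).1 he

/-- the line is determined by a point on it and its direction -/
lemma line_eq (l l' : Lines n k) (v : Fin (n + 1) → Fin k) (a a' : Fin k) (h : v = pt l a)
    (h' : v = pt l' a') (hi : l.1 = l'.1) : l = l' := by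
  obtain ⟨i, y⟩ := l
  obtain ⟨i', y'⟩ := l'
  simp only at hi
  subst hi
  have h1 : y = y' := by
    funext j
    have h2 := congrFun (h.symm.trans h') (i.succAbove j)
    simpa [pt] using h2
  rw [h1]

lemma atMostTwo (E : Lines n k → Pairs k) : AtMostTwo (graph E) (dir (n := n) (k := k)) := by
  intro v S
  have hsub : {e : Sym2 (Fin (n + 1) → Fin k) |
      e ∈ (graph E).edgeSet ∧ v ∈ e ∧ dir e = S}.Subsingleton := by
    rintro e ⟨he, hv, hS⟩ f ⟨hf, hvf, hSf⟩
    obtain ⟨l, rfl⟩ := mem_edge E e he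
    obtain ⟨l', rfl⟩ := mem_edge E f hf
    rw [dir_pt _ _ _ (E l).2] at hS
    rw [dir_pt _ _ _ (E l').2] at hSf
    have hi : l.1 = l'.1 := Set.singleton_injective (hS.trans hSf.symm)
    have hl : l = l' := by
      rcases Sym2.mem_iff.1 hv with h1 | h1 <;> rcases Sym2.mem_iff.1 hvf with h2 | h2 <;>
        exact line_eq l l' v _ _ h1 h2 hi
    rw [hl]
  have h1 := Set.encard_le_one_iff_subsingleton.2 hsub
  exact h1.trans (by norm_num)

lemma no_change (E : Lines n k → Pairs k) (i : Fin (n + 1)) {u w : Fin (n + 1) → Fin k}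
    (p : (graph E).Walk u w) (h : ∀ f ∈ p.edges, i ∉ dir f) : u i = w i := by
  induction p with
  | nil => rfl
  | cons hadj p ih =>
    rename_i u' v' w'
    rw [SimpleGraph.Walk.edges_cons] at h
    have h1 := h _ List.mem_cons_self
    have h2 := ih (fun f hf => h f (List.mem_cons_of_mem _ hf))
    rw [← h2]
    simpa using h1

lemma one_change (E : Lines n k → Pairs k) (i : Fin (n + 1)) {u w : Fin (n + 1) → Fin k}
    (p : (graph E).Walk u w) (hp : p.edges.Nodup) (e : Sym2 (Fin (n + 1) → Fin k))
    (he : e ∈ p.edges) (hi : i ∈ dir e) (h : ∀ f ∈ p.edges, f ≠ e → i ∉ dir f) : u i ≠ w i := by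
  induction p with
  | nil => simp at he
  | cons hadj p ih =>
    rename_i u' v' w'
    rw [SimpleGraph.Walk.edges_cons] at h hp he
    rw [List.nodup_cons] at hp
    by_cases hee : e = s(u', v')
    · have h2 := no_change E i p (fun f hf => h f (List.mem_cons_of_mem _ hf) (by
        rintro rfl
        exact hp.1 (hee ▸ hf)))
      rw [← h2]
      rw [hee] at hi
      simpa using hi
    · have he' : e ∈ p.edges := by
        rcases List.mem_cons.1 he with h3 | h3
        · exact absurd h3 hee
        · exact h3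
      have h2 := ih hp.2 he' (fun f hf => h f (List.mem_cons_of_mem _ hf))
      have h3 := h _ List.mem_cons_self (Ne.symm hee)
      have h4 : u' i = v' i := by simpa using h3
      rw [h4]
      exact h2

lemma noLonely (E : Lines n k → Pairs k) : NoLonelyColour (graph E) := by
  refine ⟨Set (Fin (n + 1)), dir, atMostTwo E, ?_⟩
  intro v w hw e he
  by_contra hcon
  push Not at hcon
  obtain ⟨l, hl⟩ := mem_edge E e (SimpleGraph.Walk.edges_subset_edgeSet w he)
  have hd : dir e = {l.1} := by rw [hl]; exact dir_pt _ _ _ (E l).2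
  refine one_change E l.1 w hw.isCircuit.isTrail.edges_nodup e he (by rw [hd]; rfl) ?_ rfl
  intro f hf hfe hmem
  apply hcon f hf hfe
  obtain ⟨l', hl'⟩ := mem_edge E f (SimpleGraph.Walk.edges_subset_edgeSet w hf)
  have hd' : dir f = {l'.1} := by rw [hl']; exact dir_pt _ _ _ (E l').2
  rw [hd'] at hmem
  rw [hd, hd', Set.mem_singleton_iff.1 hmem]

lemma count (m n : ℕ) (hE : ∀ E : Lines n (m + 1) → Pairs (m + 1), (graph E).Colorable m) :
    Fintype.card (Pairs (m + 1)) ^ Fintype.card (Lines n (m + 1)) ≤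
      m ^ ((m + 1) ^ (n + 1)) *
        (Fintype.card (Pairs (m + 1)) - 1) ^ Fintype.card (Lines n (m + 1)) := by
  classical
  set M := Fintype.card (Pairs (m + 1)) with hM
  -- the pairs which are not monochromatic on the line `l`
  let good : ((Fin (n + 1) → Fin (m + 1)) → Fin m) → Lines n (m + 1) → Finset (Pairs (m + 1)) :=
    fun C l => Finset.univ.filter (fun p => C (pt l p.1.1) ≠ C (pt l p.1.2))
  have hgood : ∀ C l, (good C l).card ≤ M - 1 := by
    intro C l
    obtain ⟨a, b, hab, hC⟩ := Fintype.exists_ne_map_eq_of_card_lt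
      (fun a : Fin (m + 1) => C (pt l a)) (by simp)
    have hlt : (good C l).card < M := by
      rw [hM, ← Finset.card_univ]
      apply Finset.card_lt_card
      refine ⟨Finset.subset_univ _, fun hsub => ?_⟩
      have h1 := hsub (Finset.mem_univ (⟨(a, b), hab⟩ : Pairs (m + 1)))
      simp only [good, Finset.mem_filter, Finset.mem_univ, true_and] at h1
      exact h1 hC
    omega
  have hcover : (Finset.univ : Finset (Lines n (m + 1) → Pairs (m + 1))) ⊆
      Finset.univ.biUnion (fun C => Fintype.piFinset (good C)) := by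
    intro E _
    obtain ⟨C⟩ := hE E
    simp only [Finset.mem_biUnion, Finset.mem_univ, true_and]
    refine ⟨C, ?_⟩
    rw [Fintype.mem_piFinset]
    intro l
    simp only [good, Finset.mem_filter, Finset.mem_univ, true_and]
    exact C.valid ((adj_iff E _ _).2 ⟨l, rfl⟩)
  have h1 := Finset.card_le_card hcover
  rw [Finset.card_univ, Fintype.card_fun] at h1
  refine h1.trans (Finset.card_biUnion_le.trans ?_)
  have h2 : ∀ C : (Fin (n + 1) → Fin (m + 1)) → Fin m, (Fintype.piFinset (good C)).card ≤
      (M - 1) ^ Fintype.card (Lines n (m + 1)) := by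
    intro C
    rw [Fintype.card_piFinset]
    calc ∏ l, (good C l).card ≤ ∏ _l : Lines n (m + 1), (M - 1) :=
          Finset.prod_le_prod' (fun l _ => hgood C l)
      _ = _ := by rw [Finset.prod_const, Finset.card_univ]
  calc ∑ C : (Fin (n + 1) → Fin (m + 1)) → Fin m, (Fintype.piFinset (good C)).card
      ≤ ∑ _C : (Fin (n + 1) → Fin (m + 1)) → Fin m, (M - 1) ^ Fintype.card (Lines n (m + 1)) :=
        Finset.sum_le_sum (fun C _ => h2 C)
    _ = _ := by
      rw [Finset.sum_const, Finset.card_univ, smul_eq_mul]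
      simp

lemma exists_graph (m : ℕ) (hm : 1 ≤ m) :
    ∃ (n : ℕ) (E : Lines n (m + 1) → Pairs (m + 1)), ¬ (graph E).Colorable m := by
  classical
  set M := Fintype.card (Pairs (m + 1)) with hM
  have hM2 : 2 ≤ M := by
    have h01 : (⟨0, by omega⟩ : Fin (m + 1)) ≠ ⟨1, by omega⟩ := by
      intro h; have := congrArg Fin.val h; simp at this
    rw [hM]
    refine Fintype.one_lt_card_iff.2 ⟨⟨(⟨0, by omega⟩, ⟨1, by omega⟩), h01⟩,
      ⟨(⟨1, by omega⟩, ⟨0, by omega⟩), h01.symm⟩, ?_⟩
    intro h
    exact h01 (congrArg (fun t : Pairs (m + 1) => t.1.1) h)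
  have hρ : 1 < (M : ℝ) / (M - 1 : ℝ) := by
    have : (2 : ℝ) ≤ M := by exact_mod_cast hM2
    rw [one_lt_div (by linarith)]
    linarith
  obtain ⟨n, hn⟩ := pow_unbounded_of_one_lt ((m : ℝ) ^ (m + 1)) hρ
  refine ⟨n, ?_⟩
  by_contra hcon
  push Not at hcon
  have h := count m n hcon
  rw [← hM] at h
  have hL : Fintype.card (Lines n (m + 1)) = (n + 1) * (m + 1) ^ n := by
    rw [Fintype.card_prod, Fintype.card_fun, Fintype.card_fin, Fintype.card_fin, Fintype.card_fin]
  rw [hL] at h
  have hMr : (2 : ℝ) ≤ M := by exact_mod_cast hM2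
  have hpos : (0 : ℝ) < (M : ℝ) - 1 := by linarith
  have hn' : (m : ℝ) ^ (m + 1) * ((M : ℝ) - 1) ^ (n + 1) < (M : ℝ) ^ (n + 1) := by
    have h1 : (m : ℝ) ^ (m + 1) < ((M : ℝ) / (M - 1)) ^ (n + 1) := by
      refine hn.trans_le ?_
      exact pow_le_pow_right₀ hρ.le (Nat.le_succ n)
    rw [div_pow, lt_div_iff₀ (by positivity)] at h1
    exact h1
  have h3 : ((m : ℝ) ^ (m + 1) * ((M : ℝ) - 1) ^ (n + 1)) ^ ((m + 1) ^ n) <
      ((M : ℝ) ^ (n + 1)) ^ ((m + 1) ^ n) := by
    apply pow_lt_pow_left₀ hn' (by positivity)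
    positivity
  have h4 : ((M : ℝ)) ^ ((n + 1) * (m + 1) ^ n) ≤
      (m : ℝ) ^ ((m + 1) ^ (n + 1)) * ((M : ℝ) - 1) ^ ((n + 1) * (m + 1) ^ n) := by
    have h5 : ((M - 1 : ℕ) : ℝ) = (M : ℝ) - 1 := by
      rw [Nat.cast_sub (by omega)]; simp
    rw [← h5]
    exact_mod_cast h
  rw [mul_pow, ← pow_mul, ← pow_mul, ← pow_mul] at h3
  rw [pow_succ' (m + 1) n] at h4
  linarith

end construction

/-- For every finite `m` there is a finite no lonely colour graph whose chromatic number is larger
than `m`. -/
theorem result : ∀ m : ℕ, ∃ (V : Type) (_ : Finite V) (X : SimpleGraph V),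
    NoLonelyColour X ∧ (m : ℕ∞) < X.chromaticNumber := by
  intro m
  obtain ⟨n, E, hE⟩ := exists_graph (m + 1) (by omega)
  refine ⟨Fin (n + 1) → Fin (m + 1 + 1), inferInstance, graph E, noLonely E, ?_⟩
  by_contra hcon
  rw [not_lt] at hcon
  exact hE ((SimpleGraph.chromaticNumber_le_iff_colorable.1 hcon).mono (Nat.le_succ m))

end Pool.Agent.Results.MP_2f2576_co.LonelyUnbounded
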